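import Mathlib
import Pool.Agent.Helper95.HQ.Core

/-!
# MP_b6fa11_nt: every solution of Hofstadter's recurrence jumps over infinitely many integers
-/

namespace Pool.Agent.Results.MP_b6fa11_nt.JumpedOver

open Pool.Agent.Helper95.HQ

/-- Let `f` take positive values at positive integers and satisfy, for all `n ≥ n₀` (`n₀ ≥ 3`),
Hofstadter's recurrence `f n = f (n - f (n-1)) + f (n - f (n-2))` with `f (n-1) < n` and
`f (n-2) < n`; the values at the positive integers below `n₀` are arbitrary. Then infinitely many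
integers `m` are jumped over in an upward step: `f n < m < f (n+1)` for some `n ≥ 1`. -/
theorem result (f : ℕ → ℕ) (n₀ : ℕ) (hn₀ : 3 ≤ n₀) (hpos : ∀ n, 1 ≤ n → 1 ≤ f n)
    (hwd : ∀ n, n₀ ≤ n → f (n - 1) < n ∧ f (n - 2) < n)
    (hrec : ∀ n, n₀ ≤ n → f n = f (n - f (n - 1)) + f (n - f (n - 2))) :
    {m : ℕ | ∃ n, 1 ≤ n ∧ f n < m ∧ m < f (n + 1)}.Infinite := by
  intro hfin
  obtain ⟨B, hB⟩ := hfin.bddAbove
  have hs : Sol f n₀ :=
    { pos := hpos
      le := fun m hm => by
        have := (hwd (m + 1) (by omega)).1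
        rw [show m + 1 - 1 = m by omega] at this
        omega
      rec' := fun m hm => by
        have := hrec (m + 2) (by omega)
        rw [show m + 2 - 1 = m + 1 by omega, show m + 2 - 2 = m by omega] at this
        exact this }
  refine no_sol hs (B := B + 1) (fun m hm => ?_)
  by_contra hcon
  push Not at hcon
  have : f (m + 1) - 1 ∈ {m : ℕ | ∃ n, 1 ≤ n ∧ f n < m ∧ m < f (n + 1)} :=
    ⟨m, by omega, by omega, by omega⟩
  have := hB this
  omega

end Pool.Agent.Results.MP_b6fa11_nt.JumpedOver
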