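import Mathlib
import Pool.Agent.Helper95.HQ.Onto

/-!
# MP_b6fa11_nt: solutions of Hofstadter's recurrence which miss no positive integer
-/

namespace Pool.Agent.Results.MP_b6fa11_nt.OntoSolution

open Pool.Agent.Helper95.HQ

/-- Every finite sequence `g 1, ..., g K` of positive integers (the empty one included) can be
continued to a sequence `f` of positive integers which satisfies Hofstadter's recurrence, well
defined in the sense of the problem, at all `n ≥ K + 168` and takes every positive integer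
value. -/
theorem result (K : ℕ) (g : ℕ → ℕ) (hg : ∀ n, 1 ≤ n → n ≤ K → 1 ≤ g n) :
    ∃ f : ℕ → ℕ, (∀ n, 1 ≤ n → n ≤ K → f n = g n) ∧ (∀ n, 1 ≤ n → 1 ≤ f n) ∧
      (∀ n, K + 168 ≤ n →
        f (n - 1) < n ∧ f (n - 2) < n ∧ f n = f (n - f (n - 1)) + f (n - f (n - 2))) ∧
      ∀ m, 1 ≤ m → ∃ n, 1 ≤ n ∧ f n = m := by
  obtain ⟨F, hF⟩ : ∃ F : ℕ → ℕ, F = fun n => if n ≤ K then g n else Onto.f (n - K) := ⟨_, rfl⟩
  have h1 : ∀ n, n ≤ K → F n = g n := fun n hn => by rw [hF]; simp [hn]
  have h2 : ∀ n, 1 ≤ n → F (n + K) = Onto.f n := fun n hn => by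
    rw [hF]
    simp only
    rw [if_neg (by omega), Nat.add_sub_cancel]
  refine ⟨F, fun n _ hn => h1 n hn, fun n hn => ?_, fun n hn => ?_, fun m hm => ?_⟩
  · by_cases h : n ≤ K
    · rw [h1 n h]; exact hg n hn h
    · obtain ⟨p, rfl⟩ : ∃ p, n = p + K := ⟨n - K, by omega⟩
      rw [h2 p (by omega)]
      exact Onto.pos (by omega)
  · obtain ⟨p, rfl⟩ : ∃ p, n = p + K := ⟨n - K, by omega⟩
    have hp : 168 ≤ p := by omega
    obtain ⟨a, b, c⟩ := Onto.recur hp
    have e1 : F (p + K - 1) = Onto.f (p - 1) := by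
      rw [show p + K - 1 = p - 1 + K by omega]; exact h2 _ (by omega)
    have e2 : F (p + K - 2) = Onto.f (p - 2) := by
      rw [show p + K - 2 = p - 2 + K by omega]; exact h2 _ (by omega)
    rw [e1, e2, h2 p (by omega), show p + K - Onto.f (p - 1) = p - Onto.f (p - 1) + K by omega,
      show p + K - Onto.f (p - 2) = p - Onto.f (p - 2) + K by omega, h2 _ (by omega),
      h2 _ (by omega)]
    exact ⟨by omega, by omega, c⟩
  · obtain ⟨n, hn, e⟩ := Onto.onto hm
    exact ⟨n + K, by omega, by rw [h2 n hn, e]⟩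

end Pool.Agent.Results.MP_b6fa11_nt.OntoSolution
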